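import Pool.Agent.Helper54_PR.Meas

set_option autoImplicit false

open MeasureTheory
open scoped ENNReal NNReal

namespace Pool.Agent.Helper54PR

open Pool.Agent.Helper91PR

theorem measurableSet_cell (a : ℕ) (v : ℝ) (k i : ℤ) : MeasurableSet {x : ℝ | idx a v k x = i} :=
  measurable_idx_right a v k (measurableSet_singleton i)

theorem child_inj {a : ℕ} {i : ℤ} {c c' : Fin (2 * a + 1)} (h : child a i c = child a i c') :
    c = c' := by
  unfold child at h
  apply Fin.ext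
  omega

theorem sum_child (hI : IdxStatement) (a : ℕ) (P : Measure ℝ) [IsProbabilityMeasure P] (v : ℝ)
    (k i : ℤ) : ∑ c, mass a P v k (child a i c) = mass a P v (k + 1) i := by
  obtain ⟨h1, h2, h3, -, -, -⟩ := hI a
  unfold mass
  rw [← measureReal_biUnion_finset]
  · congr 1
    ext x
    simp only [Finset.mem_univ, Set.iUnion_true, Set.mem_iUnion, Set.mem_setOf_eq]
    constructor
    · rintro ⟨c, hc⟩
      rw [← h1, hc, (h2 i c).1]
    · intro h
      refine ⟨dig a (idx a v k x), ?_⟩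
      rw [← h, ← h1, h3]
  · intro c _ c' _ hcc
    rw [Function.onFun, Set.disjoint_left]
    intro x hx hx'
    simp only [Set.mem_setOf_eq] at hx hx'
    exact hcc (child_inj (hx.symm.trans hx'))
  · intro c _
    exact measurableSet_cell a v k _

theorem mass_nonneg (a : ℕ) (P : Measure ℝ) (v : ℝ) (k i : ℤ) : 0 ≤ mass a P v k i :=
  measureReal_nonneg

theorem mass_le_one (a : ℕ) (P : Measure ℝ) [IsProbabilityMeasure P] (v : ℝ) (k i : ℤ) :
    mass a P v k i ≤ 1 := measureReal_le_one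

theorem par_zero (a : ℕ) : par a 0 = 0 := by
  unfold par
  apply Int.ediv_eq_zero_of_lt <;> push_cast <;> omega

theorem cell_zero_mono (hI : IdxStatement) (a : ℕ) (v : ℝ) (k : ℤ) (x : ℝ)
    (h : idx a v k x = 0) : idx a v (k + 1) x = 0 := by
  obtain ⟨h1, -⟩ := hI a
  rw [← h1, h, par_zero]

theorem mass_zero_mono (hI : IdxStatement) (a : ℕ) (P : Measure ℝ) [IsProbabilityMeasure P]
    (v : ℝ) (k : ℤ) : mass a P v k 0 ≤ mass a P v (k + 1) 0 := by
  unfold mass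
  exact measureReal_mono (fun x hx => cell_zero_mono hI a v k x hx)

theorem one_lt_M {a : ℕ} (ha : 1 ≤ a) : (1 : ℝ) < ((2 * a + 1 : ℕ) : ℝ) := by
  have : (1 : ℝ) ≤ a := by exact_mod_cast ha
  push_cast
  linarith

theorem cell_monotone (hI : IdxStatement) (a : ℕ) (v : ℝ) :
    Monotone fun n : ℕ => {x : ℝ | idx a v (n : ℤ) x = 0} := by
  apply monotone_nat_of_le_succ
  intro n x hx
  have := cell_zero_mono hI a v n x hx
  simpa using this

theorem exists_cell (hI : IdxStatement) {a : ℕ} (ha : 1 ≤ a) (v : ℝ) (x : ℝ) :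
    ∃ n : ℕ, ∀ m : ℕ, n ≤ m → idx a v (m : ℤ) x = 0 := by
  obtain ⟨-, -, -, -, -, h6⟩ := hI a
  have h := tendsto_pow_atTop_atTop_of_one_lt (one_lt_M ha)
  obtain ⟨n, hn⟩ := (Filter.tendsto_atTop_atTop.mp h) (2 * |v * x| + 1)
  refine ⟨n, fun m hm => h6 v x m ?_⟩
  have := hn m hm
  rw [zpow_natCast]
  linarith

theorem mass_tendsto (hI : IdxStatement) {a : ℕ} (ha : 1 ≤ a) (P : Measure ℝ)
    [IsProbabilityMeasure P] (v : ℝ) :
    Filter.Tendsto (fun n : ℕ => mass a P v (n : ℤ) 0) Filter.atTop (nhds 1) := by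
  have h1 := tendsto_measure_iUnion_atTop (μ := P) (cell_monotone hI a v)
  have h2 : (⋃ n : ℕ, {x : ℝ | idx a v (n : ℤ) x = 0}) = Set.univ := by
    ext x
    simp only [Set.mem_iUnion, Set.mem_setOf_eq, Set.mem_univ, iff_true]
    obtain ⟨n, hn⟩ := exists_cell hI ha v x
    exact ⟨n, hn n le_rfl⟩
  rw [h2, measure_univ] at h1
  have h3 := (ENNReal.tendsto_toReal ENNReal.one_ne_top).comp h1
  simpa [mass, Measure.real, Function.comp_def] using h3

/-- The middle child. -/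
def mid (a : ℕ) : Fin (2 * a + 1) := ⟨a, by omega⟩

theorem child_mid (a : ℕ) : child a 0 (mid a) = 0 := by
  unfold child mid
  simp

theorem sum_cv (hI : IdxStatement) {a : ℕ} {P : Measure ℝ} [IsProbabilityMeasure P] {v : ℝ}
    {k i : ℤ} (h : 0 < mass a P v (k + 1) i) : ∑ c, cv a P v k i c = 1 := by
  unfold cv
  rw [← Finset.sum_div, sum_child hI, div_self h.ne']

theorem cv_nonneg {a : ℕ} {P : Measure ℝ} {v : ℝ} {k i : ℤ} (c : Fin (2 * a + 1)) :
    0 ≤ cv a P v k i c := div_nonneg (mass_nonneg _ _ _ _ _) (mass_nonneg _ _ _ _ _)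

section
variable {a : ℕ} {Ω : Type} [MeasurableSpace Ω] {μ : Measure Ω} [IsProbabilityMeasure μ]
  {φ : Fin (2 * a + 1) → Fin (2 * a + 1) → ℝ} {D : ℝ}

theorem measurable_s (R : Rule a Ω μ φ D) (p : Fin (2 * a + 1) → ℝ) : Measurable (R.s p) :=
  R.meas.comp (measurable_const.prodMk measurable_id)

theorem event_prob (hI : IdxStatement) (R : Rule a Ω μ φ D) (P : Measure ℝ)
    [IsProbabilityMeasure P] (v : ℝ) (n : ℤ) (h : 0 < mass a P v (n + 1) 0) :
    (Measure.infinitePi fun _ : ℤ => μ) {ω | R.s (cv a P v n 0) (ω n) ≠ mid a} =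
      ENNReal.ofReal (1 - mass a P v n 0 / mass a P v (n + 1) 0) := by
  have hE : MeasurableSet {x : Ω | R.s (cv a P v n 0) x = mid a} :=
    measurable_s R _ (measurableSet_singleton _)
  have h0 : {ω : ℤ → Ω | R.s (cv a P v n 0) (ω n) ≠ mid a} =
      (fun ω : ℤ → Ω => ω n) ⁻¹' {x : Ω | R.s (cv a P v n 0) x = mid a}ᶜ := rfl
  rw [h0, (measurePreserving_eval_infinitePi (fun _ : ℤ => μ) n).measure_preimage
    hE.compl.nullMeasurableSet]
  have h1 : μ.real {x : Ω | R.s (cv a P v n 0) x = mid a} = mass a P v n 0 / mass a P v (n + 1) 0 := by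
    rw [R.law _ (fun c => cv_nonneg c) (sum_cv hI h) (mid a)]
    unfold cv
    rw [child_mid]
  rw [← h1, ← ofReal_measureReal, probReal_compl_eq_one_sub hE]

theorem ae_eventually_mid (hI : IdxStatement) (ha : 1 ≤ a) (R : Rule a Ω μ φ D) (P : Measure ℝ)
    [IsProbabilityMeasure P] (v : ℝ) :
    ∀ᵐ ω ∂(Measure.infinitePi fun _ : ℤ => μ), ∃ N : ℕ, ∀ n : ℕ, N ≤ n →
      R.s (cv a P v (n : ℤ) 0) (ω n) = mid a := by
  have hT := mass_tendsto hI ha P v
  obtain ⟨n0, hn0⟩ := Filter.eventually_atTop.mp (hT.eventually (lt_mem_nhds (show (1 : ℝ) / 2 < 1 by norm_num)))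
  have hmono : ∀ n : ℕ, mass a P v (n : ℤ) 0 ≤ mass a P v ((n + 1 : ℕ) : ℤ) 0 := by
    intro n
    have := mass_zero_mono hI a P v (n : ℤ)
    simpa using this
  have hsum : ∑' n : ℕ, (Measure.infinitePi fun _ : ℤ => μ)
      {ω | R.s (cv a P v ((n0 + n : ℕ) : ℤ) 0) (ω ((n0 + n : ℕ) : ℤ)) ≠ mid a} ≠ ∞ := by
    apply ne_top_of_le_ne_top (b := ENNReal.ofReal 2) ENNReal.ofReal_ne_top
    apply ENNReal.tsum_le_of_sum_range_le
    intro m
    calc _ ≤ ∑ i ∈ Finset.range m, ENNReal.ofReal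
          (2 * (mass a P v ((n0 + (i + 1) : ℕ) : ℤ) 0) - 2 * (mass a P v ((n0 + i : ℕ) : ℤ) 0)) := by
          apply Finset.sum_le_sum
          intro i _
          have hpos1 : 1 / 2 < mass a P v ((n0 + i : ℕ) : ℤ) 0 := hn0 _ (by omega)
          have hpos2 : 1 / 2 < mass a P v (((n0 + i : ℕ) : ℤ) + 1) 0 := by
            have := hn0 (n0 + i + 1) (by omega)
            simpa using this
          rw [event_prob hI R P v _ (by linarith)]
          apply ENNReal.ofReal_le_ofReal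
          have h1 : mass a P v ((n0 + (i + 1) : ℕ) : ℤ) 0 = mass a P v (((n0 + i : ℕ) : ℤ) + 1) 0 := by
            congr 1
          rw [h1]
          have h2 : mass a P v ((n0 + i : ℕ) : ℤ) 0 ≤ mass a P v (((n0 + i : ℕ) : ℤ) + 1) 0 :=
            mass_zero_mono hI a P v _
          have h3 : (1 : ℝ) - mass a P v ((n0 + i : ℕ) : ℤ) 0 / mass a P v (((n0 + i : ℕ) : ℤ) + 1) 0
              = (mass a P v (((n0 + i : ℕ) : ℤ) + 1) 0 - mass a P v ((n0 + i : ℕ) : ℤ) 0) /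
                mass a P v (((n0 + i : ℕ) : ℤ) + 1) 0 := by
            field_simp
          rw [h3, div_le_iff₀ (by linarith)]
          nlinarith
      _ = ENNReal.ofReal (∑ i ∈ Finset.range m,
          (2 * (mass a P v ((n0 + (i + 1) : ℕ) : ℤ) 0) - 2 * (mass a P v ((n0 + i : ℕ) : ℤ) 0))) := by
          rw [ENNReal.ofReal_sum_of_nonneg]
          intro i _
          have := hmono (n0 + i)
          have h1 : n0 + (i + 1) = n0 + i + 1 := by ring
          rw [h1]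
          linarith
      _ ≤ ENNReal.ofReal 2 := by
          apply ENNReal.ofReal_le_ofReal
          rw [Finset.sum_range_sub (fun i => 2 * (mass a P v ((n0 + i : ℕ) : ℤ) 0))]
          have h1 := mass_le_one a P v ((n0 + m : ℕ) : ℤ) 0
          have h2 := mass_nonneg a P v ((n0 + 0 : ℕ) : ℤ) 0
          linarith
  filter_upwards [ae_eventually_notMem hsum] with ω hω
  obtain ⟨N, hN⟩ := Filter.eventually_atTop.mp hω
  refine ⟨n0 + N, fun n hn => ?_⟩
  have h := hN (n - n0) (by omega)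
  rw [Nat.add_sub_cancel' (by omega)] at h
  simpa using h

omit [IsProbabilityMeasure μ] in
theorem desc_shift (R : Rule a Ω μ φ D) (P : Measure ℝ) (v : ℝ) (ω : ℤ → Ω) (n : ℤ)
    (h : R.s (cv a P v n 0) (ω n) = mid a) (t : ℕ) :
    desc R P v ω (n + 1) (t + 1) = desc R P v ω n t := by
  induction t with
  | zero =>
    have h1 : n + 1 - ((0 : ℕ) : ℤ) - 1 = n := by simp
    simp only [desc]
    rw [h1, h, child_mid]
  | succ t ih =>
    have h1 : n + 1 - ((t + 1 : ℕ) : ℤ) - 1 = n - (t : ℤ) - 1 := by push_cast; ring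
    have e1 : desc R P v ω (n + 1) (t + 1 + 1) = child a (desc R P v ω (n + 1) (t + 1))
      (R.s (cv a P v (n + 1 - ((t + 1 : ℕ) : ℤ) - 1) (desc R P v ω (n + 1) (t + 1)))
        (ω (n + 1 - ((t + 1 : ℕ) : ℤ) - 1))) := rfl
    rw [e1, ih, h1]
    rfl

omit [IsProbabilityMeasure μ] in
theorem Yn_step (R : Rule a Ω μ φ D) (P : Measure ℝ) {v : ℝ} (hv : 0 < v) (ω : ℤ → Ω) (n : ℕ)
    (h : R.s (cv a P v n 0) (ω n) = mid a) :
    |Yn R P n (v, ω) - Yn R P (n + 1) (v, ω)| ≤ 1 / v * (((2 * a + 1 : ℕ) : ℝ)⁻¹) ^ n := by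
  have hM : (0 : ℝ) < ((2 * a + 1 : ℕ) : ℝ) := by positivity
  have h1 : desc R P v ω ((n + 1 : ℕ) : ℤ) (2 * (n + 1)) = desc R P v ω n (2 * n + 1) := by
    have := desc_shift R P v ω n h (2 * n + 1)
    have e : 2 * (n + 1) = 2 * n + 1 + 1 := by ring
    rw [e]
    push_cast
    exact this
  have h2 : ∃ c : Fin (2 * a + 1), desc R P v ω n (2 * n + 1) = child a (desc R P v ω n (2 * n)) c :=
    ⟨_, rfl⟩
  obtain ⟨c, hc⟩ := h2
  unfold Yn
  simp only
  rw [h1, hc]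
  set i := desc R P v ω n (2 * n) with hi
  set M : ℝ := ((2 * a + 1 : ℕ) : ℝ) with hMdef
  have h3 : ((child a i c : ℤ) : ℝ) = M * i + ((c : ℕ) : ℝ) - a := by
    unfold child
    rw [hMdef]
    push_cast
    ring
  have h4 : M ^ (-((n + 1 : ℕ) : ℤ)) = M⁻¹ * M ^ (-(n : ℤ)) := by
    rw [← zpow_neg_one, ← zpow_add₀ hM.ne']
    congr 1
    push_cast
    ring
  rw [h3, h4]
  have h5 : (i : ℝ) * M ^ (-(n : ℤ)) / v - (M * i + ((c : ℕ) : ℝ) - a) * (M⁻¹ * M ^ (-(n : ℤ))) / v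
      = ((a : ℝ) - ((c : ℕ) : ℝ)) / M * (1 / v * M ^ (-(n : ℤ))) := by
    field_simp
    ring
  rw [h5, abs_mul, abs_of_pos (show 0 < 1 / v * M ^ (-(n : ℤ)) by positivity)]
  have h6 : |((a : ℝ) - ((c : ℕ) : ℝ)) / M| ≤ 1 := by
    rw [abs_div, abs_of_pos hM, div_le_one hM]
    have hc1 : ((c : ℕ) : ℝ) ≤ 2 * a := by
      have := c.2
      have h : (c : ℕ) ≤ 2 * a := by omega
      exact_mod_cast h
    have hc0 : (0 : ℝ) ≤ ((c : ℕ) : ℝ) := Nat.cast_nonneg _
    have ha0 : (0 : ℝ) ≤ (a : ℝ) := Nat.cast_nonneg _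
    rw [hMdef, abs_le]
    push_cast
    constructor <;> linarith
  have h7 : M ^ (-(n : ℤ)) = M⁻¹ ^ n := by
    rw [zpow_neg, zpow_natCast, inv_pow]
  rw [h7]
  have h8 : (0 : ℝ) ≤ 1 / v * M⁻¹ ^ n := by positivity
  calc |((a : ℝ) - ((c : ℕ) : ℝ)) / M| * (1 / v * M⁻¹ ^ n) ≤ 1 * (1 / v * M⁻¹ ^ n) :=
        mul_le_mul_of_nonneg_right h6 h8
    _ = _ := one_mul _

omit [IsProbabilityMeasure μ] in
theorem tendsto_of_mid (ha : 1 ≤ a) (R : Rule a Ω μ φ D) (P : Measure ℝ) {v : ℝ} (hv : 0 < v)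
    (ω : ℤ → Ω) (N : ℕ) (h : ∀ n : ℕ, N ≤ n → R.s (cv a P v n 0) (ω n) = mid a) :
    Filter.Tendsto (fun n : ℕ => Yn R P n (v, ω)) Filter.atTop (nhds (XP R P (v, ω))) := by
  have hM := one_lt_M ha
  have h1 : CauchySeq fun n : ℕ => Yn R P (n + N) (v, ω) := by
    apply cauchySeq_of_le_geometric (((2 * a + 1 : ℕ) : ℝ)⁻¹)
      (1 / v * (((2 * a + 1 : ℕ) : ℝ)⁻¹) ^ N) (inv_lt_one_of_one_lt₀ hM)
    intro n
    rw [Real.dist_eq]
    have e : n + 1 + N = n + N + 1 := by ring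
    rw [e]
    refine (Yn_step R P hv ω (n + N) ?_).trans (le_of_eq ?_)
    · have := h (n + N) (by omega)
      exact this
    · rw [pow_add]
      ring
  obtain ⟨l, hl⟩ := cauchySeq_tendsto_of_complete h1
  have h2 : Filter.Tendsto (fun n : ℕ => Yn R P n (v, ω)) Filter.atTop (nhds l) :=
    (Filter.tendsto_add_atTop_iff_nat N).mp hl
  unfold XP
  exact tendsto_nhds_limUnder ⟨l, h2⟩

end

theorem conv (hI : IdxStatement) : ConvStatement := by
  intro a Ω _ μ _ φ D R P _ ha v hv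
  filter_upwards [ae_eventually_mid hI ha R P v] with ω hω
  obtain ⟨N, hN⟩ := hω
  exact tendsto_of_mid ha R P hv ω N hN

end Pool.Agent.Helper54PR
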