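import Pool.Agent.Helper91_PR.Defs

set_option autoImplicit false

open MeasureTheory
open scoped ENNReal NNReal

namespace Pool.Agent.Helper54PR

open Pool.Agent.Helper91PR

theorem measurable_idx (a : ℕ) (k : ℤ) : Measurable fun z : ℝ × ℝ => idx a z.1 k z.2 := by
  unfold idx
  refine Int.measurable_floor.comp ?_
  fun_prop

theorem measurable_idx_right (a : ℕ) (v : ℝ) (k : ℤ) : Measurable fun x : ℝ => idx a v k x :=
  (measurable_idx a k).comp (measurable_const.prodMk measurable_id)

theorem measurable_mass (a : ℕ) (P : Measure ℝ) [IsProbabilityMeasure P] (k i : ℤ) :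
    Measurable fun v : ℝ => mass a P v k i := by
  unfold mass
  have hs : MeasurableSet {z : ℝ × ℝ | idx a z.1 k z.2 = i} :=
    measurable_idx a k (measurableSet_singleton i)
  exact (measurable_measure_prodMk_left (ν := P) hs).ennreal_toReal

theorem measurable_cv (a : ℕ) (P : Measure ℝ) [IsProbabilityMeasure P] (k i : ℤ) :
    Measurable fun v : ℝ => cv a P v k i := by
  rw [measurable_pi_iff]
  intro c
  exact (measurable_mass a P k _).div (measurable_mass a P (k + 1) i)

/-- Substituting a measurable integer valued function into a family of measurable functions. -/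
theorem measurable_of_int {α β : Type*} [MeasurableSpace α] [MeasurableSpace β] (g : α → ℤ)
    (hg : Measurable g) (F : ℤ → α → β) (hF : ∀ i, Measurable (F i)) :
    Measurable fun z => F (g z) z := by
  intro s hs
  have : (fun z => F (g z) z) ⁻¹' s = ⋃ i : ℤ, (g ⁻¹' {i} ∩ (F i) ⁻¹' s) := by
    ext z
    simp
  rw [this]
  exact MeasurableSet.iUnion fun i => (hg (measurableSet_singleton i)).inter (hF i hs)

theorem measurable_desc {a : ℕ} {Ω : Type} [MeasurableSpace Ω] {μ : Measure Ω}
    {φ : Fin (2 * a + 1) → Fin (2 * a + 1) → ℝ} {D : ℝ} (R : Rule a Ω μ φ D)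
    (P : Measure ℝ) [IsProbabilityMeasure P] (n : ℤ) (t : ℕ) :
    Measurable fun z : ℝ × (ℤ → Ω) => desc R P z.1 z.2 n t := by
  induction t with
  | zero => exact measurable_const
  | succ t ih =>
    simp only [desc]
    refine measurable_of_int (fun z : ℝ × (ℤ → Ω) => desc R P z.1 z.2 n t) ih
      (fun (i : ℤ) (z : ℝ × (ℤ → Ω)) => child a i (R.s (cv a P z.1 (n - t - 1) i) (z.2 (n - t - 1)))) ?_
    intro i
    have h1 : Measurable fun z : ℝ × (ℤ → Ω) => R.s (cv a P z.1 (n - t - 1) i) (z.2 (n - t - 1)) := by
      have h2 : Measurable fun z : ℝ × (ℤ → Ω) =>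
          ((cv a P z.1 (n - t - 1) i, z.2 (n - t - 1)) : (Fin (2 * a + 1) → ℝ) × Ω) :=
        ((measurable_cv a P (n - t - 1) i).comp measurable_fst).prodMk
          ((measurable_pi_apply _).comp measurable_snd)
      exact R.meas.comp h2
    exact (measurable_from_top (f := fun c : Fin (2 * a + 1) => child a i c)).comp h1

theorem meas : MeasStatement := by
  intro a Ω _ μ _ φ D R P _
  refine ⟨fun n t => measurable_desc R P n t, fun n => ?_⟩
  unfold Yn
  have h1 : Measurable fun z : ℝ × (ℤ → Ω) => ((desc R P z.1 z.2 n (2 * n) : ℤ) : ℝ) :=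
    (measurable_from_top (f := fun j : ℤ => (j : ℝ))).comp (measurable_desc R P n (2 * n))
  exact (h1.mul_const _).div measurable_fst

end Pool.Agent.Helper54PR
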