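import Pool.Agent.Helper91_PR.Defs

set_option autoImplicit false

open MeasureTheory
open scoped ENNReal NNReal

namespace Pool.Agent.Helper54PR

open Pool.Agent.Helper91PR

theorem exists_a (s : ℝ) (hs : 0 < s) (hs2 : s ≤ 1 / 2) :
    ∃ a : ℕ, 1 ≤ a ∧ 4 ≤ ((2 * a + 1 : ℕ) : ℝ) ^ s ∧ ((2 * a + 1 : ℕ) : ℝ) ^ s ≤ 5 := by
  set X : ℝ := 4 ^ (1 / s) with hX
  have hX16 : (16 : ℝ) ≤ X := by
    have h2 : (2 : ℝ) ≤ 1 / s := by
      rw [le_div_iff₀ hs]; linarith
    calc (16 : ℝ) = (4 : ℝ) ^ (2 : ℝ) := by norm_num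
      _ ≤ X := Real.rpow_le_rpow_of_exponent_le (by norm_num) h2
  have hXs : X ^ s = 4 := by
    rw [hX, ← Real.rpow_mul (by norm_num)]
    rw [one_div_mul_cancel hs.ne']
    norm_num
  have hX0 : 0 < X := by linarith
  refine ⟨⌈(X - 1) / 2⌉₊, ?_, ?_, ?_⟩
  · have h := Nat.le_ceil ((X - 1) / 2)
    have h2 : (1 : ℝ) ≤ ((⌈(X - 1) / 2⌉₊ : ℕ) : ℝ) := by linarith
    exact_mod_cast h2
  · have h := Nat.le_ceil ((X - 1) / 2)
    have h2 : X ≤ ((2 * ⌈(X - 1) / 2⌉₊ + 1 : ℕ) : ℝ) := by push_cast; linarith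
    calc (4 : ℝ) = X ^ s := hXs.symm
      _ ≤ _ := Real.rpow_le_rpow hX0.le h2 hs.le
  · have h := Nat.ceil_lt_add_one (a := (X - 1) / 2) (by linarith)
    have h2 : ((2 * ⌈(X - 1) / 2⌉₊ + 1 : ℕ) : ℝ) ≤ (9 / 8) * X := by push_cast; linarith
    have h3 : ((2 * ⌈(X - 1) / 2⌉₊ + 1 : ℕ) : ℝ) ^ s ≤ ((9 / 8) * X) ^ s :=
      Real.rpow_le_rpow (by positivity) h2 hs.le
    have h4 : ((9 / 8) * X) ^ s = (9 / 8 : ℝ) ^ s * X ^ s := Real.mul_rpow (by norm_num) hX0.le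
    have h5 : (9 / 8 : ℝ) ^ s ≤ (9 / 8 : ℝ) ^ (1 : ℝ) :=
      Real.rpow_le_rpow_of_exponent_le (by norm_num) (by linarith)
    rw [Real.rpow_one] at h5
    rw [h4, hXs] at h3
    linarith

theorem abs_sub_ge_one {a : ℕ} {c c' : Fin (2 * a + 1)} (h : c ≠ c') :
    (1 : ℝ) ≤ |((c : ℕ) : ℝ) - (c' : ℕ)| := by
  have h1 : ((c : ℕ) : ℤ) - (c' : ℕ) ≠ 0 := by
    intro h2
    apply h
    apply Fin.ext
    omega
  have h2 : (1 : ℤ) ≤ |((c : ℕ) : ℤ) - (c' : ℕ)| := Int.one_le_abs h1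
  have h3 : ((1 : ℤ) : ℝ) ≤ ((|((c : ℕ) : ℤ) - (c' : ℕ)| : ℤ) : ℝ) := Int.cast_le.mpr h2
  push_cast at h3
  exact h3

theorem abs_sub_le_two {a : ℕ} (c c' : Fin (2 * a + 1)) :
    |((c : ℕ) : ℝ) - (c' : ℕ)| ≤ 2 * a := by
  have h1 : ((c : ℕ) : ℝ) ≤ 2 * a := by
    have := c.2
    have h : (c : ℕ) ≤ 2 * a := by omega
    exact_mod_cast h
  have h2 : ((c' : ℕ) : ℝ) ≤ 2 * a := by
    have := c'.2
    have h : (c' : ℕ) ≤ 2 * a := by omega
    exact_mod_cast h
  have h3 : (0 : ℝ) ≤ ((c : ℕ) : ℝ) := Nat.cast_nonneg _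
  have h4 : (0 : ℝ) ≤ ((c' : ℕ) : ℝ) := Nat.cast_nonneg _
  rw [abs_le]
  constructor <;> linarith

theorem param : ParamStatement := by
  constructor
  · intro q hq hq1
    obtain ⟨a, ha, h4, h5⟩ := exists_a (1 - q) (by linarith) (by linarith)
    have haR : (1 : ℝ) ≤ a := by exact_mod_cast ha
    have hM : (1 : ℝ) ≤ ((2 * a + 1 : ℕ) : ℝ) := by push_cast; linarith
    refine ⟨a, ?_⟩
    refine { q_pos := by linarith, q_lt := hq1, a_pos := ha, four_le := ?_, four_le' := h4,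
             φ_nonneg := fun c c' => abs_nonneg _, φ_self := fun c => by simp,
             φ_le := fun c c' => abs_sub_le_two c c', φ_le_dist := fun c c' => le_rfl,
             pow_le := ?_, D_pos := by linarith, D_le := by push_cast; linarith,
             D_or := Or.inr h5 }
    · exact h4.trans (Real.rpow_le_rpow_of_exponent_le hM (by linarith))
    · intro c c' hcc
      have h1 := abs_sub_ge_one hcc
      have h2 : (|((c : ℕ) : ℝ) - (c' : ℕ)| + 1) ^ q ≤ (|((c : ℕ) : ℝ) - (c' : ℕ)| + 1) ^ (1 : ℝ) :=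
        Real.rpow_le_rpow_of_exponent_le (by linarith) hq1.le
      rw [Real.rpow_one] at h2
      linarith
  · intro q hq hq1
    obtain ⟨a, ha, h4, h5⟩ := exists_a q hq hq1
    have haR : (1 : ℝ) ≤ a := by exact_mod_cast ha
    have hM : (1 : ℝ) ≤ ((2 * a + 1 : ℕ) : ℝ) := by push_cast; linarith
    refine ⟨a, ?_⟩
    refine { q_pos := hq, q_lt := by linarith, a_pos := ha, four_le := h4, four_le' := ?_,
             φ_nonneg := ?_, φ_self := fun c => by simp,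
             φ_le := ?_, φ_le_dist := ?_,
             pow_le := ?_, D_pos := one_pos, D_le := hM,
             D_or := Or.inl le_rfl }
    · exact h4.trans (Real.rpow_le_rpow_of_exponent_le hM (by linarith))
    · intro c c'
      by_cases h : c = c' <;> simp [h]
    · intro c c'
      by_cases h : c = c' <;> simp [h]
    · intro c c'
      by_cases h : c = c'
      · simp [h]
      · simp only [h, if_false]
        exact abs_sub_ge_one h
    · intro c c' hcc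
      simp only [hcc, if_false]
      have h1 := abs_sub_le_two c c'
      have h2 : (|((c : ℕ) : ℝ) - (c' : ℕ)| + 1) ^ q ≤ ((2 * a + 1 : ℕ) : ℝ) ^ q := by
        apply Real.rpow_le_rpow (by positivity) _ hq.le
        push_cast
        linarith
      linarith

end Pool.Agent.Helper54PR
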