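import Pool.Agent.Helper54_PR.Conv

set_option autoImplicit false

open MeasureTheory
open scoped ENNReal NNReal BoundedContinuousFunction

namespace Pool.Agent.Helper54PR

open Pool.Agent.Helper91PR

section
variable {a : ℕ} {Ω : Type} [MeasurableSpace Ω] {μ : Measure Ω} [IsProbabilityMeasure μ]
  {φ : Fin (2 * a + 1) → Fin (2 * a + 1) → ℝ} {D : ℝ}

theorem measurable_Yn (R : Rule a Ω μ φ D) (P : Measure ℝ) [IsProbabilityMeasure P] (n : ℕ) :
    Measurable (Yn R P n) := (meas a Ω μ φ D R P).2 n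

theorem measurable_desc_right (R : Rule a Ω μ φ D) (P : Measure ℝ) [IsProbabilityMeasure P]
    (v : ℝ) (n : ℤ) (t : ℕ) : Measurable fun ω : ℤ → Ω => desc R P v ω n t :=
  (measurable_desc R P n t).comp (measurable_const.prodMk measurable_id)

/-- The law of the descent as a measure on the integers. -/
theorem map_desc (hL : DescLawStatement) (R : Rule a Ω μ φ D) (P : Measure ℝ)
    [IsProbabilityMeasure P] {v : ℝ} (hv : 0 < v) (n : ℤ) (t : ℕ) (h : 0 < mass a P v n 0) :
    (Measure.infinitePi fun _ : ℤ => μ).map (fun ω => desc R P v ω n t) =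
      (P {x | idx a v n x = 0})⁻¹ •
        ((P.restrict {x | idx a v n x = 0}).map fun x => idx a v (n - t) x) := by
  apply Measure.ext_of_singleton
  intro i
  rw [Measure.map_apply (measurable_desc_right R P v n t) (measurableSet_singleton i),
    Measure.smul_apply, Measure.map_apply (measurable_idx_right a v _) (measurableSet_singleton i),
    Measure.restrict_apply (measurable_idx_right a v _ (measurableSet_singleton i)), smul_eq_mul]
  have h1 := hL a Ω μ φ D R P v hv n t i h
  have h2 : (fun x => idx a v (n - t) x) ⁻¹' {i} ∩ {x | idx a v n x = 0} =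
      {x | idx a v n x = 0 ∧ idx a v (n - t) x = i} := by
    ext x
    simp [and_comm]
  rw [h2]
  have h3 : (fun ω => desc R P v ω n t) ⁻¹' {i} = {ω | desc R P v ω n t = i} := rfl
  rw [h3, ← ofReal_measureReal (μ := Measure.infinitePi fun _ : ℤ => μ), h1, ENNReal.ofReal_div_of_pos h]
  unfold mass
  rw [ofReal_measureReal, ofReal_measureReal, ENNReal.div_eq_inv_mul]

theorem integral_Yn (hL : DescLawStatement) (R : Rule a Ω μ φ D) (P : Measure ℝ)
    [IsProbabilityMeasure P] {v : ℝ} (hv : 0 < v) (n : ℕ) (h : 0 < mass a P v n 0) (f : ℝ → ℝ) :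
    ∫ ω, f (Yn R P n (v, ω)) ∂(Measure.infinitePi fun _ : ℤ => μ) =
      (mass a P v n 0)⁻¹ * ∫ x, ({x | idx a v n x = 0} : Set ℝ).indicator
        (fun x => f ((idx a v (-(n : ℤ)) x : ℝ) * ((2 * a + 1 : ℕ) : ℝ) ^ (-(n : ℤ)) / v)) x ∂P := by
  have h1 : ∫ ω, f (Yn R P n (v, ω)) ∂(Measure.infinitePi fun _ : ℤ => μ) =
      ∫ j : ℤ, f ((j : ℝ) * ((2 * a + 1 : ℕ) : ℝ) ^ (-(n : ℤ)) / v)
        ∂((Measure.infinitePi fun _ : ℤ => μ).map (fun ω => desc R P v ω n (2 * n))) := by
    rw [integral_map (measurable_desc_right R P v n (2 * n)).aemeasurable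
      (measurable_from_top (f := fun j : ℤ => f ((j : ℝ) * ((2 * a + 1 : ℕ) : ℝ) ^ (-(n : ℤ)) / v))).aestronglyMeasurable]
    rfl
  rw [h1, map_desc hL R P hv n (2 * n) h, integral_smul_measure,
    integral_map (measurable_idx_right a v _).aemeasurable
      (measurable_from_top (f := fun j : ℤ => f ((j : ℝ) * ((2 * a + 1 : ℕ) : ℝ) ^ (-(n : ℤ)) / v))).aestronglyMeasurable,
    integral_indicator (measurableSet_cell a v _ _)]
  rw [ENNReal.toReal_inv, smul_eq_mul]
  have e : (n : ℤ) - ((2 * n : ℕ) : ℤ) = -(n : ℤ) := by push_cast; ring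
  rw [e]
  rfl

theorem tendsto_centre (hI : IdxStatement) (ha : 1 ≤ a) {v : ℝ} (hv : 0 < v) (x : ℝ) :
    Filter.Tendsto (fun n : ℕ => (idx a v (-(n : ℤ)) x : ℝ) *
      ((2 * a + 1 : ℕ) : ℝ) ^ (-(n : ℤ)) / v) Filter.atTop (nhds x) := by
  obtain ⟨-, -, -, -, h5, -⟩ := hI a
  have hM := one_lt_M ha
  rw [tendsto_iff_dist_tendsto_zero]
  have h0 : Filter.Tendsto (fun n : ℕ => (1 / (2 * v)) * (((2 * a + 1 : ℕ) : ℝ)⁻¹) ^ n)
      Filter.atTop (nhds 0) := by
    have := (tendsto_pow_atTop_nhds_zero_of_lt_one (r := ((2 * a + 1 : ℕ) : ℝ)⁻¹)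
      (by positivity) (inv_lt_one_of_one_lt₀ hM)).const_mul (1 / (2 * v))
    simpa using this
  refine squeeze_zero (fun n => dist_nonneg) (fun n => ?_) h0
  rw [dist_comm, Real.dist_eq]
  refine (h5 v (-(n : ℤ)) x hv).trans (le_of_eq ?_)
  rw [zpow_neg, zpow_natCast, inv_pow]
  ring

theorem tendsto_integral_Yn (hI : IdxStatement) (hL : DescLawStatement) (ha : 1 ≤ a)
    (R : Rule a Ω μ φ D) (P : Measure ℝ) [IsProbabilityMeasure P] {v : ℝ} (hv : 0 < v)
    (f : ℝ →ᵇ ℝ) :
    Filter.Tendsto (fun n : ℕ => ∫ ω, f (Yn R P n (v, ω)) ∂(Measure.infinitePi fun _ : ℤ => μ))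
      Filter.atTop (nhds (∫ x, f x ∂P)) := by
  have hT := mass_tendsto hI ha P v
  have h1 : ∀ᶠ n : ℕ in Filter.atTop, 0 < mass a P v n 0 := by
    filter_upwards [hT.eventually (lt_mem_nhds (show (0 : ℝ) < 1 by norm_num))] with n hn using hn
  have h2 : Filter.Tendsto (fun n : ℕ => ∫ x, ({x | idx a v n x = 0} : Set ℝ).indicator
        (fun x => f ((idx a v (-(n : ℤ)) x : ℝ) * ((2 * a + 1 : ℕ) : ℝ) ^ (-(n : ℤ)) / v)) x ∂P)
      Filter.atTop (nhds (∫ x, f x ∂P)) := by
    apply tendsto_integral_of_dominated_convergence (fun _ => ‖f‖)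
    · intro n
      apply Measurable.aestronglyMeasurable
      apply Measurable.indicator _ (measurableSet_cell a v _ _)
      exact (measurable_from_top (f := fun j : ℤ => f ((j : ℝ) * ((2 * a + 1 : ℕ) : ℝ) ^ (-(n : ℤ)) / v))).comp
        (measurable_idx_right a v _)
    · exact integrable_const _
    · intro n
      filter_upwards with x
      refine (norm_indicator_le_norm_self _ _).trans (f.norm_coe_le_norm _)
    · filter_upwards with x
      obtain ⟨N, hN⟩ := exists_cell hI ha v x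
      have h3 : Filter.Tendsto (fun n : ℕ => f ((idx a v (-(n : ℤ)) x : ℝ) *
          ((2 * a + 1 : ℕ) : ℝ) ^ (-(n : ℤ)) / v)) Filter.atTop (nhds (f x)) :=
        (f.continuous.tendsto x).comp (tendsto_centre hI ha hv x)
      refine h3.congr' ?_
      filter_upwards [Filter.eventually_ge_atTop N] with n hn
      rw [Set.indicator_of_mem]
      exact hN n hn
  have h3 : Filter.Tendsto (fun n : ℕ => (mass a P v n 0)⁻¹ *
      ∫ x, ({x | idx a v n x = 0} : Set ℝ).indicator
        (fun x => f ((idx a v (-(n : ℤ)) x : ℝ) * ((2 * a + 1 : ℕ) : ℝ) ^ (-(n : ℤ)) / v)) x ∂P)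
      Filter.atTop (nhds (1⁻¹ * ∫ x, f x ∂P)) :=
    (hT.inv₀ one_ne_zero).mul h2
  rw [inv_one, one_mul] at h3
  refine h3.congr' ?_
  filter_upwards [h1] with n hn
  rw [integral_Yn hL R P hv n hn]

theorem aemeasurable_XP_right (hI : IdxStatement) (ha : 1 ≤ a) (R : Rule a Ω μ φ D)
    (P : Measure ℝ) [IsProbabilityMeasure P] {v : ℝ} (hv : 0 < v) :
    AEMeasurable (fun ω => XP R P (v, ω)) (Measure.infinitePi fun _ : ℤ => μ) := by
  apply aemeasurable_of_tendsto_metrizable_ae (u := Filter.atTop)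
    (f := fun n : ℕ => fun ω => Yn R P n (v, ω))
  · intro n
    exact ((measurable_Yn R P n).comp (measurable_const.prodMk measurable_id)).aemeasurable
  · exact conv hI a Ω μ φ D R P ha v hv

theorem integral_XP_right (hI : IdxStatement) (hL : DescLawStatement) (ha : 1 ≤ a)
    (R : Rule a Ω μ φ D) (P : Measure ℝ) [IsProbabilityMeasure P] {v : ℝ} (hv : 0 < v)
    (f : ℝ →ᵇ ℝ) :
    ∫ ω, f (XP R P (v, ω)) ∂(Measure.infinitePi fun _ : ℤ => μ) = ∫ x, f x ∂P := by
  refine tendsto_nhds_unique ?_ (tendsto_integral_Yn hI hL ha R P hv f)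
  apply tendsto_integral_of_dominated_convergence (fun _ => ‖f‖)
  · intro n
    exact (f.continuous.measurable.comp
      ((measurable_Yn R P n).comp (measurable_const.prodMk measurable_id))).aestronglyMeasurable
  · exact integrable_const _
  · intro n
    filter_upwards with x
    exact f.norm_coe_le_norm _
  · filter_upwards [conv hI a Ω μ φ D R P ha v hv] with ω hω
    exact (f.continuous.tendsto _).comp hω

instance isProb_muV : IsProbabilityMeasure muV := by
  constructor
  unfold muV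
  rw [Measure.restrict_apply_univ, Real.volume_Icc]
  norm_num

theorem ae_muV_pos : ∀ᵐ v ∂muV, 0 < v := by
  unfold muV
  rw [ae_restrict_iff' measurableSet_Icc]
  filter_upwards with v hv
  linarith [hv.1]

/-- Almost sure convergence with respect to the product measure. -/
theorem ae_prod_tendsto (hI : IdxStatement) (ha : 1 ≤ a) (R : Rule a Ω μ φ D)
    (P : Measure ℝ) [IsProbabilityMeasure P] :
    ∀ᵐ z ∂(muV.prod (Measure.infinitePi fun _ : ℤ => μ)),
      Filter.Tendsto (fun n : ℕ => Yn R P n z) Filter.atTop (nhds (XP R P z)) := by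
  have hm : MeasurableSet {z : ℝ × (ℤ → Ω) | ∃ l, Filter.Tendsto (fun n : ℕ => Yn R P n z)
      Filter.atTop (nhds l)} :=
    measurableSet_exists_tendsto fun n => (measurable_Yn R P n)
  have h1 : ∀ᵐ z ∂(muV.prod (Measure.infinitePi fun _ : ℤ => μ)),
      z ∈ {z : ℝ × (ℤ → Ω) | ∃ l, Filter.Tendsto (fun n : ℕ => Yn R P n z)
      Filter.atTop (nhds l)} := by
    rw [Measure.ae_prod_mem_iff_ae_ae_mem hm]
    filter_upwards [ae_muV_pos] with v hv
    filter_upwards [conv hI a Ω μ φ D R P ha v hv] with ω hω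
    exact ⟨_, hω⟩
  filter_upwards [h1] with z hz
  unfold XP
  exact tendsto_nhds_limUnder hz

end

theorem xlaw (hI : IdxStatement) (hL : DescLawStatement) : XLawStatement := by
  intro a Ω _ μ _ φ D R P _ ha
  have hm : AEMeasurable (XP R P) (muV.prod (Measure.infinitePi fun _ : ℤ => μ)) :=
    aemeasurable_of_tendsto_metrizable_ae (u := Filter.atTop)
      (f := fun n : ℕ => Yn R P n) (fun n => (measurable_Yn R P n).aemeasurable)
      (ae_prod_tendsto hI ha R P)
  refine ⟨hm, ?_⟩
  have hprob : IsProbabilityMeasure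
      ((muV.prod (Measure.infinitePi fun _ : ℤ => μ)).map (XP R P)) :=
    Measure.isProbabilityMeasure_map hm
  apply ext_of_forall_integral_eq_of_IsFiniteMeasure
  intro f
  rw [integral_map hm f.continuous.measurable.aestronglyMeasurable]
  have hint : Integrable (fun z => f (XP R P z)) (muV.prod (Measure.infinitePi fun _ : ℤ => μ)) := by
    refine Integrable.of_bound ?_ ‖f‖ ?_
    · exact (f.continuous.measurable.comp_aemeasurable hm).aestronglyMeasurable
    · filter_upwards with z
      exact f.norm_coe_le_norm _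
  rw [integral_prod _ hint]
  have h1 : ∫ v, ∫ ω, f (XP R P (v, ω)) ∂(Measure.infinitePi fun _ : ℤ => μ) ∂muV =
      ∫ _v, (∫ x, f x ∂P) ∂muV := by
    apply integral_congr_ae
    filter_upwards [ae_muV_pos] with v hv
    exact integral_XP_right hI hL ha R P hv f
  rw [h1]
  simp

end Pool.Agent.Helper54PR
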